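import Pool.Agent.TH292.MR.Main

/-!
# A non-linear example with SRB measure = measure of maximal entropy = measure of maximal dimension

There is a `C^∞` diffeomorphism `f` of the two-torus satisfying hypothesis (H) whose unstable SRB
measure, measure of maximal entropy and measure of maximal dimension coincide, and which is not
`C^∞` conjugate to a linear automorphism.
-/

set_option autoImplicit false

open MeasureTheory Pool.Agent.TH292.MR

namespace Pool.Agent.Results.MP_4492e9_an.BlownUpCatMap

theorem result : ∃ (f : Torus ≃ₜ Torus) (F G : Plane → Plane) (μ : Measure Torus),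
    IsSmoothDiffeo f F G ∧ SatisfiesH f F μ μ μ ∧
    (∀ η : Measure Torus, IsInvariant f η → η ≠ μ →
      ∃ Z : Set Torus, MeasurableSet Z ∧ 0 < η Z ∧ dimH Z < measureDim μ) ∧
    ¬ SmoothlyConjugateToLinear f :=
  ⟨ff, FF, GG, mu, isSmoothDiffeo, satisfiesH, fun η hη hne => by
    rw [dim_mu]; exact dim_lt_F hη hne, not_conj⟩

end Pool.Agent.Results.MP_4492e9_an.BlownUpCatMap
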